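import Pool.Agent.H18.NimReg

open Pool.Agent.H18.NimReg

namespace Pool.Agent.Results.MP_02a275_nt.Q2Counter

theorem result : ∃ a b : ℕ → ℕ, Reg (fun n => (a n : ℤ)) ∧ Reg (fun n => (b n : ℤ)) ∧
    ¬ Reg2 (fun i j => ((Nat.xor (a i) (b j) : ℕ) : ℤ)) :=
  ⟨a, b, reg_of_mem _ aM, reg_of_mem _ bM, fun h => not_reg (reg_diag _ h)⟩

end Pool.Agent.Results.MP_02a275_nt.Q2Counter
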